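import Mathlib
import Pool.Agent.Run7.h805.EF.Fin

/-!
# Many representations in additive bases of order 2 (helper805)

If every large `n` has at least `k ≥ 1` representations as a sum of two elements of `A`, then
infinitely many `n` have at least `k + 1 + 2 √k`.  For `k = 1000` this is more than `1064`, so that
`1010` representations do occur, which answers the question Q1 in the affirmative.
-/

set_option autoImplicit false

namespace Pool.Agent.Results.MP_eaae5b_nt.RangeOfRepresentations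

/-- `r_{A,2}(n)`: the number of the ordered pairs `(a₁, a₂) ∈ A × A` with `a₁ + a₂ = n`. -/
noncomputable def r2 (A : Set ℕ) (n : ℕ) : ℕ :=
  Set.ncard {p : ℕ × ℕ | p.1 ∈ A ∧ p.2 ∈ A ∧ p.1 + p.2 = n}

theorem result :
    (∀ A : Set ℕ, (∃ n₀ : ℕ, ∀ n, n₀ ≤ n → 1000 ≤ r2 A n) → ∃ n : ℕ, 1010 ≤ r2 A n) ∧
    (∀ (A : Set ℕ) (k : ℕ), 1 ≤ k → (∃ n₀ : ℕ, ∀ n, n₀ ≤ n → k ≤ r2 A n) →
      ∀ N : ℕ, ∃ n : ℕ, N ≤ n ∧ (k : ℝ) + 1 + 2 * Real.sqrt k ≤ (r2 A n : ℝ)) := by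
  have h2 : ∀ (A : Set ℕ) (k : ℕ), 1 ≤ k → (∃ n₀ : ℕ, ∀ n, n₀ ≤ n → k ≤ r2 A n) →
      ∀ N : ℕ, ∃ n : ℕ, N ≤ n ∧ (k : ℝ) + 1 + 2 * Real.sqrt k ≤ (r2 A n : ℝ) :=
    fun A k hk h N => Run7.h805.EF.gap A k hk h N
  refine ⟨fun A hA => ?_, h2⟩
  obtain ⟨n, -, hn⟩ := h2 A 1000 (by norm_num) hA 0
  refine ⟨n, ?_⟩
  have h3 : (9 : ℝ) ≤ 2 * Real.sqrt ((1000 : ℕ) : ℝ) := by
    have : (5 : ℝ) ≤ Real.sqrt ((1000 : ℕ) : ℝ) := by
      apply Real.le_sqrt_of_sq_le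
      norm_num
    linarith
  have h4 : ((1010 : ℕ) : ℝ) ≤ (r2 A n : ℝ) := by
    push_cast at hn h3 ⊢
    linarith
  exact_mod_cast h4

end Pool.Agent.Results.MP_eaae5b_nt.RangeOfRepresentations
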